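import Pool.Statements.S12037
import Pool.Agent.Lib.MP_e2be92_co.Ball
import Pool.Agent.Lib.MP_e2be92_co.VRed


set_option autoImplicit false
open Matrix
open Pool Pool.MP_e2be92_co

namespace Pool.Agent.S12037

/-- There is a constant C such that for all n and any n real n×n matrices of spectral norm at most 1, some choice of signs ±1 makes the signed sum have spectral norm at most C times the square root of n. -/
theorem result :
    ∃ C : ℝ, ∀ n : ℕ, ∀ A : Fin n → Matrix (Fin n) (Fin n) ℝ,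
      (∀ i, ∀ x : Fin n → ℝ, ∑ j, ((A i) *ᵥ x) j ^ 2 ≤ ∑ j, x j ^ 2) →
      ∃ ε : Fin n → ℝ, (∀ i, ε i = 1 ∨ ε i = -1) ∧
        ∀ x : Fin n → ℝ,
          ∑ j, ((∑ i, ε i • A i) *ᵥ x) j ^ 2 ≤ C ^ 2 * (n : ℝ) * ∑ j, x j ^ 2 := by
  exact Pool.Agent.MS.spencer_of_smallBall
    (Pool.Agent.MS.smallBall_of_smallBall0 Pool.Agent.MS.smallBall0)

end Pool.Agent.S12037
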