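import Pool.Agent.Lib.MP_e2be92_co.Ball
import Pool.Agent.Lib.MP_e2be92_co.VRed

/-! The matrix Spencer theorem with the operator norm of Euclidean space. -/

set_option autoImplicit false

namespace Pool.Agent.Results.MP_e2be92_co.OperatorNorm

open Matrix

theorem result :
    ∃ C : ℝ, 0 < C ∧ ∀ (n : ℕ)
      (A : Fin n → (EuclideanSpace ℝ (Fin n) →L[ℝ] EuclideanSpace ℝ (Fin n))),
      (∀ i, ‖A i‖ ≤ 1) →
      ∃ ε : Fin n → ℝ, (∀ i, ε i = 1 ∨ ε i = -1) ∧ ‖∑ i, ε i • A i‖ ≤ C * Real.sqrt n := by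
  obtain ⟨C, hC⟩ := Pool.Agent.MS.spencer_of_smallBall
    (Pool.Agent.MS.smallBall_of_smallBall0 Pool.Agent.MS.smallBall0)
  refine ⟨|C| + 1, by positivity, fun n A hA => ?_⟩
  set e := toEuclideanCLM (n := Fin n) (𝕜 := ℝ) with he
  have hn : ∀ (M : Matrix (Fin n) (Fin n) ℝ) (x : EuclideanSpace ℝ (Fin n)),
      ‖e M x‖ ^ 2 = ∑ j, (M *ᵥ x.ofLp) j ^ 2 := fun M x => by
    rw [EuclideanSpace.real_norm_sq_eq, ← ofLp_toEuclideanCLM]
  obtain ⟨ε, h1, h2⟩ := hC n (fun i => e.symm (A i)) fun i x => by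
    have h := hn (e.symm (A i)) (WithLp.toLp 2 x)
    rw [e.apply_symm_apply] at h
    have h' : ‖A i (WithLp.toLp 2 x)‖ ≤ ‖(WithLp.toLp 2 x : EuclideanSpace ℝ (Fin n))‖ :=
      ((A i).le_opNorm _).trans (mul_le_of_le_one_left (norm_nonneg _) (hA i))
    have h3 := pow_le_pow_left₀ (norm_nonneg _) h' 2
    rw [h, EuclideanSpace.real_norm_sq_eq] at h3
    exact h3
  refine ⟨ε, h1, ?_⟩
  have e1 : ∑ i, ε i • A i = e (∑ i, ε i • e.symm (A i)) := by
    rw [map_sum]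
    exact Finset.sum_congr rfl fun i _ => by rw [map_smul, e.apply_symm_apply]
  rw [e1]
  refine ContinuousLinearMap.opNorm_le_bound _ (by positivity) fun x => ?_
  refine (pow_le_pow_iff_left₀ (norm_nonneg _) (by positivity) two_ne_zero).1 ?_
  rw [hn, mul_pow, mul_pow, Real.sq_sqrt (Nat.cast_nonneg n), EuclideanSpace.real_norm_sq_eq]
  refine (h2 x.ofLp).trans ?_
  have h4 : C ^ 2 ≤ (|C| + 1) ^ 2 := by
    rw [← sq_abs C]
    exact pow_le_pow_left₀ (abs_nonneg C) (by linarith) 2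
  exact mul_le_mul_of_nonneg_right (mul_le_mul_of_nonneg_right h4 (Nat.cast_nonneg n))
    (Finset.sum_nonneg fun j _ => sq_nonneg _)

end Pool.Agent.Results.MP_e2be92_co.OperatorNorm
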