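import Pool.Agent.Lib.MP_e2be92_co.PX.Fin

/-! An ordering of `n` contractions of size `n` with sum zero that keeps every initial sum small. -/

namespace Pool.Agent.Results.MP_e2be92_co.Steinitz

theorem result :
    ∃ C : ℝ, 0 < C ∧ ∀ (n : ℕ)
      (A : Fin n → (EuclideanSpace ℝ (Fin n) →L[ℝ] EuclideanSpace ℝ (Fin n))),
      (∀ i, ‖A i‖ ≤ 1) → ∑ i, A i = 0 →
      ∃ σ : Equiv.Perm (Fin n), ∀ t : ℕ,
        ‖∑ s ∈ Finset.univ.filter (fun s : Fin n => s.val < t), A (σ s)‖ ≤ C * Real.sqrt n := by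
  refine ⟨1440000000, by norm_num, fun n A hA h0 => Pool.Agent.MS.px_transfer A h0 fun σ => ?_⟩
  obtain ⟨ε, h1, h2⟩ := Pool.Agent.MS.px_main n 1 A hA fun _ => σ
  exact ⟨fun s => ε (σ s), fun s => h1 _, fun t => by simpa using h2 0 t⟩

end Pool.Agent.Results.MP_e2be92_co.Steinitz
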